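import Pool.Agent.Helper68.SG2.GoalsE

/-!
# Project SG stage 2 (MP_a41896_nt), packet SEQT: the pigeonhole argument

Adapted from `Pool/Agent/Helper54/SGM/CLS.lean` and `Pool/Agent/Helper7/SGM/SEQ.lean`.
-/

set_option autoImplicit false

namespace Pool.Agent.Helper49.SG2

open Pool.Agent.Helper68.SG2 Pool.Agent.Helper29.BL

theorem cls {G : Type} [AddCommGroup G] (Γ : AddSubgroup G) (H : G → ℝ) (S : ℕ → G → G)
    (hH : ScH H S) (hS : ∀ a, ∀ z ∈ Γ, S a z ∈ Γ) (hP : Pk Γ H) (θ : ℝ) (hθ : 0 < θ) :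
    ∃ N : ℕ, ∀ (m : ℕ) (z : ℕ → G), (∀ i, z i ∈ Γ) → 0 < H (z 0) →
      (∀ i, H (z i) ≤ H (z (i + 1))) → ∃ f : ℕ → Fin N, ∀ i j, i < j → j ≤ m → f i = f j →
        ∃ e : ℕ, H (S e (z i) - z j) ≤ θ ^ 2 * H (z j) := by
  have hκ : (1 : ℝ) ≤ max 1 (4 / θ) := le_max_left _ _
  obtain ⟨N, hN⟩ := hP (max 1 (4 / θ)) hκ
  refine ⟨N, fun m z hz h0 hmono => ?_⟩
  have hm : Monotone fun i => H (z i) := monotone_nat_of_le_succ hmono
  have hpos : ∀ i, 0 < H (z i) := fun i => lt_of_lt_of_le h0 (hm (Nat.zero_le i))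
  have hsp : ∀ i, 0 < √(H (z i)) := fun i => Real.sqrt_pos.mpr (hpos i)
  have hR : 0 < √(H (z m)) := hsp m
  have hex : ∀ i, ∃ g : ℕ, i ≤ m →
      2 ^ g * √(H (z i)) ≤ √(H (z m)) ∧ √(H (z m)) < 2 ^ (g + 1) * √(H (z i)) := by
    intro i
    by_cases hi : i ≤ m
    · have h1 : (1 : ℝ) ≤ √(H (z m)) / √(H (z i)) := by
        rw [le_div_iff₀ (hsp i), one_mul]
        exact Real.sqrt_le_sqrt (hm hi)
      obtain ⟨g, hg1, hg2⟩ := exists_nat_pow_near h1 (one_lt_two (α := ℝ))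
      refine ⟨g, fun _ => ⟨?_, ?_⟩⟩
      · rwa [le_div_iff₀ (hsp i)] at hg1
      · rwa [div_lt_iff₀ (hsp i)] at hg2
    · exact ⟨0, fun h => absurd h hi⟩
  choose g hg using hex
  set R : ℝ := √(H (z m)) with hRdef
  have h42 : ∀ k : ℕ, (4 : ℝ) ^ k = (2 ^ k) ^ 2 := by
    intro k
    rw [← pow_mul, mul_comm, pow_mul]
    norm_num
  have hsq : ∀ i, √(H (S (g i) (z i))) = 2 ^ g i * √(H (z i)) := by
    intro i
    rw [hH.mul, h42, Real.sqrt_mul (by positivity), Real.sqrt_sq (by positivity)]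
  have hdist : ∀ x y : G, √(H (x - y)) ≤ √(H x) + √(H y) := by
    intro x y
    have h := hH.tri x (-y)
    rwa [hH.neg, ← sub_eq_add_neg] at h
  classical
  set B : Finset G := (Finset.range (m + 1)).image fun i => S (g i) (z i) with hB
  have hBm : ∀ i, i ≤ m → S (g i) (z i) ∈ B := fun i hi =>
    Finset.mem_image_of_mem _ (Finset.mem_range.mpr (Nat.lt_succ_of_le hi))
  have hBR : ∀ w ∈ B, √(H w) ≤ R := by
    intro w hw
    obtain ⟨i, hi, rfl⟩ := Finset.mem_image.mp hw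
    have hi' : i ≤ m := Nat.le_of_lt_succ (Finset.mem_range.mp hi)
    rw [hsq]
    exact (hg i hi').1
  obtain ⟨f, hf⟩ := hN B
    (fun w hw => by
      obtain ⟨i, _, rfl⟩ := Finset.mem_image.mp hw
      exact hS _ _ (hz i))
    (θ * R / 2) (by positivity)
    (fun w hw w' hw' => by
      have h1 := hdist w w'
      have h2 := hBR w hw
      have h3 := hBR w' hw'
      have h4 : (4 / θ) * (θ * R / 2) ≤ max 1 (4 / θ) * (θ * R / 2) :=
        mul_le_mul_of_nonneg_right (le_max_right _ _) (by positivity)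
      have h5 : (4 / θ) * (θ * R / 2) = 2 * R := by
        field_simp
        ring
      linarith)
  refine ⟨fun i => f (S (g i) (z i)), fun i j hij hj hfe => ?_⟩
  have hi : i ≤ m := hij.le.trans hj
  have hle : g j ≤ g i := by
    by_contra hlt
    push Not at hlt
    have h1 := (hg i hi).2
    have h2 := (hg j hj).1
    have h3 : (2 : ℝ) ^ (g i + 1) ≤ 2 ^ g j := pow_le_pow_right₀ (by norm_num) hlt
    have h4 : √(H (z i)) ≤ √(H (z j)) := Real.sqrt_le_sqrt (hm hij.le)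
    have h5 : (2 : ℝ) ^ (g i + 1) * √(H (z i)) ≤ 2 ^ g j * √(H (z j)) :=
      mul_le_mul h3 h4 (Real.sqrt_nonneg _) (by positivity)
    linarith
  refine ⟨g i - g j, ?_⟩
  have h1 := hf _ (hBm i hi) _ (hBm j hj) hfe
  have h2 : S (g i) (z i) - S (g j) (z j) = S (g j) (S (g i - g j) (z i) - z j) := by
    rw [hH.sub, ← hH.add, Nat.add_sub_cancel' hle]
  have h3 := (hg j hj).2
  have h4 : √(H (S (g i) (z i) - S (g j) (z j))) ≤ θ * (2 ^ g j * √(H (z j))) := by
    have h5 : R ≤ 2 * (2 ^ g j * √(H (z j))) := by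
      rw [pow_succ] at h3
      linarith
    have h6 : θ * R ≤ θ * (2 * (2 ^ g j * √(H (z j)))) := mul_le_mul_of_nonneg_left h5 hθ.le
    linarith
  have h7 : H (S (g i) (z i) - S (g j) (z j)) ≤ (θ * (2 ^ g j * √(H (z j)))) ^ 2 := by
    rw [← Real.sq_sqrt (hH.nonneg (S (g i) (z i) - S (g j) (z j)))]
    exact pow_le_pow_left₀ (Real.sqrt_nonneg _) h4 2
  rw [h2, hH.mul, h42, mul_pow, mul_pow, Real.sq_sqrt (hpos j).le] at h7
  have h8 : (0 : ℝ) < (2 ^ g j) ^ 2 := by positivity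
  refine le_of_mul_le_mul_left (a := ((2 : ℝ) ^ g j) ^ 2) ?_ h8
  calc ((2 : ℝ) ^ g j) ^ 2 * H (S (g i - g j) (z i) - z j)
      ≤ θ ^ 2 * (((2 : ℝ) ^ g j) ^ 2 * H (z j)) := h7
    _ = ((2 : ℝ) ^ g j) ^ 2 * (θ ^ 2 * H (z j)) := by ring

theorem t_SEQT : Pool.Agent.Helper68.SG2.SEQT := by
  intro G _ Γ H S hH hS hP Ex n θ K0 hθ hno
  classical
  by_contra hcon
  push Not at hcon
  -- the sequence
  obtain ⟨K, hK1, hK0⟩ : ∃ K : ℝ, 1 ≤ K ∧ K0 ≤ K := ⟨max 1 K0, le_max_left _ _, le_max_right _ _⟩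
  choose w hwΓ hwE hwH using hcon
  set z : ℕ → G := fun i => Nat.rec (w K) (fun _ g => w (K * H g)) i with hz
  have hz0 : z 0 = w K := rfl
  have hzs : ∀ i, z (i + 1) = w (K * H (z i)) := fun i => rfl
  have hzΓ : ∀ i, z i ∈ Γ := by
    intro i
    cases i with
    | zero => exact hwΓ _
    | succ i => exact hwΓ _
  have hzE : ∀ i, Ex (z i) := by
    intro i
    cases i with
    | zero => exact hwE _
    | succ i => exact hwE _
  have hz0K : K < H (z 0) := hwH K
  have hstep : ∀ i, K * H (z i) ≤ H (z (i + 1)) := fun i => (hwH (K * H (z i))).le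
  have hpos : ∀ i, 0 < H (z i) := by
    intro i
    induction i with
    | zero => linarith
    | succ i ih => exact lt_of_lt_of_le (mul_pos (by linarith) ih) (hstep i)
  have hmono1 : ∀ i, H (z i) ≤ H (z (i + 1)) := by
    intro i
    refine le_trans ?_ (hstep i)
    have := hpos i
    nlinarith
  have hmono : Monotone fun i => H (z i) := monotone_nat_of_le_succ hmono1
  have hjump : ∀ i j, i < j → K * H (z i) ≤ H (z j) := by
    intro i j hij
    obtain ⟨k, rfl⟩ := Nat.exists_eq_add_of_lt hij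
    refine le_trans ?_ (hstep (i + k))
    have : H (z i) ≤ H (z (i + k)) := hmono (Nat.le_add_right i k)
    exact mul_le_mul_of_nonneg_left this (by linarith)
  -- classes
  obtain ⟨N, hN⟩ := cls Γ H S hH hS hP θ hθ
  obtain ⟨f, hf⟩ := hN (N * n) z hzΓ (hpos 0) hmono1
  obtain ⟨c, _, hc⟩ := Finset.exists_lt_card_fiber_of_mul_lt_card_of_maps_to
    (s := Finset.range (N * n + 1)) (t := (Finset.univ : Finset (Fin N))) (f := f) (n := n)
    (fun _ _ => Finset.mem_univ _) (by simp)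
  set s := (Finset.range (N * n + 1)).filter (fun i => f i = c) with hs
  set emb := s.orderEmbOfCardLe (k := n + 1) hc with hemb
  have hmem : ∀ j, emb j ∈ s := fun j => Finset.orderEmbOfCardLe_mem s hc j
  set idx : ℕ → ℕ := fun j => emb ⟨min j n, by omega⟩ with hidx
  have hidxlt : ∀ i j, i < j → j ≤ n → idx i < idx j := by
    intro i j hij hjn
    simp only [hidx]
    apply emb.strictMono
    rw [Fin.mk_lt_mk]
    omega
  have hidxs : ∀ j, idx j ≤ N * n ∧ f (idx j) = c := by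
    intro j
    have h := hmem ⟨min j n, by omega⟩
    rw [hs, Finset.mem_filter, Finset.mem_range] at h
    exact ⟨by simp only [hidx]; omega, h.2⟩
  have hex : ∀ j, ∃ e : ℕ, j < n → H (S e (z (idx j)) - z (idx n)) ≤ θ ^ 2 * H (z (idx n)) := by
    intro j
    by_cases hj : j < n
    · obtain ⟨e, he⟩ := hf (idx j) (idx n) (hidxlt j n hj le_rfl) (hidxs n).1
        (by rw [(hidxs j).2, (hidxs n).2])
      exact ⟨e, fun _ => he⟩
    · exact ⟨0, fun h => absurd h hj⟩
  choose e he using hex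
  refine hno (fun j => z (idx j)) e ?_ ?_ ?_ ?_
  · have : H (z 0) ≤ H (z (idx 0)) := hmono (Nat.zero_le _)
    show K0 ≤ H (z (idx 0))
    linarith
  · intro j hj
    have h1 := hjump (idx j) (idx (j + 1)) (hidxlt j (j + 1) (Nat.lt_succ_self j) hj)
    have h2 : K0 * H (z (idx j)) ≤ K * H (z (idx j)) :=
      mul_le_mul_of_nonneg_right hK0 (hpos _).le
    exact le_trans h2 h1
  · intro j hj
    exact he j hj
  · intro j _
    exact hzE _

end Pool.Agent.Helper49.SG2
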